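import Mathlib.Combinatorics.SimpleGraph.Prod
import Mathlib.Combinatorics.SimpleGraph.Hasse
import Mathlib.Data.Fintype.Prod
import Mathlib.Data.Nat.Bitwise
import Mathlib.Tactic
import Pool.Agent.Q261.Bulk

/-!
# The first player wins the snooker domination game on the `2 × 7` grid

A set of picked squares is coded by a number below `2 ^ 14`.  The winning positions for the player
to move with `n` unpicked squares are the bits of the number `tab n`, which is computed from
`tab (n - 1)` by shifts and Boolean operations.
-/

set_option autoImplicit false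

namespace Pool.Agent.Results.MP_a0a898_co.TwoBySeven

open Pool.Agent.Q261.Bulk

/-- The `k × m` grid `P_k □ P_m`. -/
abbrev grid (k m : ℕ) : SimpleGraph (Fin k × Fin m) :=
  (SimpleGraph.pathGraph k).boxProd (SimpleGraph.pathGraph m)

/-- `S` is a dominating set of `G`. -/
def IsDominating {V : Type} (G : SimpleGraph V) (S : Finset V) : Prop :=
  ∀ v : V, v ∈ S ∨ ∃ w ∈ S, G.Adj v w

/-- The player to move wins the snooker domination game from the position in which the set `S`
(not dominating) has been picked and `n` vertices are unpicked: he can pick a vertex `v` such that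
the set of picked vertices becomes dominating, or such that the opponent, who is then to move,
does not win. -/
def MoverWins {V : Type} [DecidableEq V] (G : SimpleGraph V) : ℕ → Finset V → Prop
  | 0, _ => False
  | n + 1, S => ∃ v, v ∉ S ∧
      (IsDominating G (insert v S) ∨ ¬ MoverWins G n (insert v S))

/-- The first player wins the snooker domination game on `G`. -/
def FirstPlayerWins {V : Type} [DecidableEq V] [Fintype V] (G : SimpleGraph V) : Prop :=
  MoverWins G (Fintype.card V) ∅

/-! ### The table -/

/-- the squares of the `2 × 7` grid -/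
abbrev W := Fin 2 × Fin 7

/-- the number of a square -/
def idx (v : W) : ℕ := 7 * v.1.val + v.2.val

/-- the numbers of the squares in the closed neighbourhood of a square -/
def nb : List (List ℕ) :=
  [[0, 1, 7], [0, 1, 2, 8], [1, 2, 3, 9], [2, 3, 4, 10], [3, 4, 5, 11], [4, 5, 6, 12],
   [5, 6, 13], [0, 7, 8], [1, 7, 8, 9], [2, 8, 9, 10], [3, 9, 10, 11], [4, 10, 11, 12],
   [5, 11, 12, 13], [6, 12, 13]]

/-- is the coded set dominating? -/
def dom (s : ℕ) : Bool := nb.all (fun l => l.any (fun i => s.testBit i))

/-- the squares -/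
def squares : List ℕ := [0, 1, 2, 3, 4, 5, 6, 7, 8, 9, 10, 11, 12, 13]

/-- the table of the dominating sets -/
def DOM : ℕ := andL 14 (nb.map (fun l => orL (l.map (fun i => P 14 i))))

/-- one step of the recursion -/
def step (x : ℕ) : ℕ :=
  orL (squares.map (fun i => compl 14 (P 14 i) &&& ((DOM ||| compl 14 x) >>> (2 ^ i))))

/-- the tables of the winning positions -/
def tab : ℕ → ℕ
  | 0 => 0
  | n + 1 => step (tab n)

/-- the set coded by `s` -/
def dec (s : ℕ) : Finset W := Finset.univ.filter (fun v => s.testBit (idx v) = true)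

theorem mem_dec (s : ℕ) (v : W) : v ∈ dec s ↔ s.testBit (idx v) = true := by
  simp [dec]

theorem idx_inj : ∀ v w : W, idx v = idx w → v = w := by decide

theorem idx_lt : ∀ v : W, idx v < 14 := by decide

theorem insert_dec (s : ℕ) (v : W) : insert v (dec s) = dec (s ||| 2 ^ idx v) := by
  ext w
  rw [Finset.mem_insert, mem_dec, mem_dec, Nat.testBit_or, Nat.testBit_two_pow, Bool.or_eq_true,
    decide_eq_true_iff]
  constructor
  · rintro (rfl | h)
    · exact Or.inr rfl
    · exact Or.inl h
  · rintro (h | h)
    · exact Or.inr h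
    · exact Or.inl (idx_inj _ _ h).symm

theorem nb_spec1 : ∀ v w : W, (w = v ∨ (grid 2 7).Adj v w) →
    idx w ∈ nb.getD (idx v) [] := by
  simp only [SimpleGraph.boxProd_adj, SimpleGraph.pathGraph_adj]
  decide

theorem nb_spec2 : ∀ v : W, ∀ i ∈ nb.getD (idx v) [], ∃ w : W, idx w = i ∧
    (w = v ∨ (grid 2 7).Adj v w) := by
  simp only [SimpleGraph.boxProd_adj, SimpleGraph.pathGraph_adj]
  decide

theorem nb_spec3 : ∀ l ∈ nb, ∃ v : W, nb.getD (idx v) [] = l := by decide

theorem nb_spec4 : ∀ v : W, nb.getD (idx v) [] ∈ nb := by decide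

theorem nb_spec5 : ∀ l ∈ nb, ∀ i ∈ l, i < 14 := by decide

theorem dom_iff (s : ℕ) : IsDominating (grid 2 7) (dec s) ↔ dom s = true := by
  unfold dom
  rw [List.all_eq_true]
  constructor
  · intro h l hl
    obtain ⟨v, rfl⟩ := nb_spec3 l hl
    rw [List.any_eq_true]
    rcases h v with h | ⟨w, hw, hadj⟩
    · exact ⟨idx v, nb_spec1 v v (Or.inl rfl), (mem_dec s v).1 h⟩
    · exact ⟨idx w, nb_spec1 v w (Or.inr hadj), (mem_dec s w).1 hw⟩
  · intro h v
    have h1 := h _ (nb_spec4 v)
    rw [List.any_eq_true] at h1
    obtain ⟨i, hi, hs⟩ := h1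
    obtain ⟨w, rfl, hw⟩ := nb_spec2 v i hi
    rcases hw with rfl | hw
    · exact Or.inl ((mem_dec s _).2 hs)
    · exact Or.inr ⟨w, (mem_dec s w).2 hs, hw⟩

theorem testBit_DOM {s : ℕ} (hs : s < 2 ^ 14) : DOM.testBit s = dom s := by
  rw [Bool.eq_iff_iff]
  unfold DOM dom
  rw [testBit_andL hs, List.all_map, List.all_eq_true, List.all_eq_true]
  refine forall_congr' fun l => forall_congr' fun hl => ?_
  simp only [Function.comp_apply]
  rw [testBit_orL, List.any_map, List.any_eq_true, List.any_eq_true]
  refine exists_congr fun i => and_congr_right fun hi => ?_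
  simp only [Function.comp_apply]
  rw [testBit_P, decide_eq_true hs, decide_eq_true (nb_spec5 l hl i hi), Bool.true_and,
    Bool.true_and]

theorem squares_spec1 : ∀ v : W, idx v ∈ squares := by decide

theorem squares_spec2 : ∀ i ∈ squares, ∃ v : W, idx v = i := by decide

theorem squares_spec3 : ∀ i ∈ squares, i < 14 := by decide

theorem main : ∀ (n s : ℕ), s < 2 ^ 14 →
    ((tab n).testBit s = true ↔ MoverWins (grid 2 7) n (dec s)) := by
  intro n
  induction n with
  | zero =>
    intro s _
    rw [tab, Nat.zero_testBit, MoverWins]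
    simp
  | succ n ih =>
    intro s hs
    rw [tab, step, testBit_orL, List.any_map, List.any_eq_true, MoverWins]
    have key : ∀ v : W, s.testBit (idx v) = false →
        (((DOM ||| compl 14 (tab n)) >>> (2 ^ idx v)).testBit s = true ↔
          (IsDominating (grid 2 7) (insert v (dec s)) ∨
          ¬ MoverWins (grid 2 7) n (insert v (dec s)))) := by
      intro v hv
      have hs' : s ||| 2 ^ idx v < 2 ^ 14 :=
        Nat.or_lt_two_pow hs (Nat.pow_lt_pow_right (by norm_num) (idx_lt v))
      rw [testBit_shift _ hv, Nat.testBit_or, testBit_DOM hs', testBit_compl _ hs', Bool.or_eq_true,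
        insert_dec, dom_iff, ← ih _ hs']
      simp
    have hP : ∀ i ∈ squares, ((compl 14 (P 14 i)).testBit s = true ↔ s.testBit i = false) := by
      intro i hi
      rw [testBit_compl _ hs, testBit_P, decide_eq_true hs, decide_eq_true (squares_spec3 i hi)]
      simp
    constructor
    · rintro ⟨i, hi, h⟩
      obtain ⟨v, rfl⟩ := squares_spec2 i hi
      simp only [Function.comp_apply] at h
      rw [Nat.testBit_and, Bool.and_eq_true, hP _ hi] at h
      refine ⟨v, ?_, (key v h.1).1 h.2⟩
      rw [mem_dec, h.1]
      exact Bool.false_ne_true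
    · rintro ⟨v, hv, h⟩
      refine ⟨idx v, squares_spec1 v, ?_⟩
      simp only [Function.comp_apply]
      have hv' : s.testBit (idx v) = false := by
        rw [mem_dec] at hv
        simpa using hv
      rw [Nat.testBit_and, Bool.and_eq_true, hP _ (squares_spec1 v)]
      exact ⟨hv', (key v hv').2 h⟩

theorem tab_zero : (tab 14).testBit 0 = true := by decide +kernel

/-- There are `k, m ≥ 2` with `k m` even such that the first player wins the snooker domination
game on the `k × m` grid (namely `k = 2`, `m = 7`). -/
theorem result : ∃ k m : ℕ, 2 ≤ k ∧ 2 ≤ m ∧ Even (k * m) ∧ FirstPlayerWins (grid k m) := by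
  refine ⟨2, 7, le_rfl, by norm_num, by decide, ?_⟩
  have h0 : dec 0 = ∅ := by decide
  have h := (main 14 0 (by norm_num)).1 tab_zero
  rw [h0] at h
  exact h

end Pool.Agent.Results.MP_a0a898_co.TwoBySeven
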